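import Mathlib
import Pool.Agent.V11205.IRC.Graph

/-!
# MP_4ec7af_co, Q1 (negated form)

There is a finite simple graph (on twelve vertices) whose IR-graph is isomorphic to the cycle
`C_16`.
-/

set_option autoImplicit false

namespace Pool.Agent.Results.MP_4ec7af_co.CycleSixteenIsIRGraph

variable {V : Type} [Fintype V] [DecidableEq V]

/-- The set of `D`-private neighbours of `v`: the vertices `w` with `w = v` or `w ∼ v` such that
no vertex of `D - {v}` equals `w` or is adjacent to `w`. -/
def PN (G : SimpleGraph V) (v : V) (D : Finset V) : Set V :=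
  {w | (w = v ∨ G.Adj v w) ∧ ∀ u ∈ D, u ≠ v → ¬ (w = u ∨ G.Adj u w)}

/-- `D` is irredundant: each of its vertices has a `D`-private neighbour. -/
def Irredundant (G : SimpleGraph V) (D : Finset V) : Prop :=
  ∀ v ∈ D, (PN G v D).Nonempty

/-- The upper irredundance number: the largest size of an irredundant set. -/
noncomputable def IR (G : SimpleGraph V) : ℕ :=
  sSup {k | ∃ D : Finset V, Irredundant G D ∧ D.card = k}

/-- The `IR(G)`-sets: irredundant sets of size `IR(G)`. -/
def IRSet (G : SimpleGraph V) : Type :=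
  {D : Finset V // Irredundant G D ∧ D.card = IR G}

/-- `D` is adjacent to `D'` in the IR-graph: there are `u ∈ D` and `v ∈ D' - {u}` with
`uv ∈ E` and `D' = (D - {u}) ∪ {v}`. -/
def Slide (G : SimpleGraph V) (D D' : Finset V) : Prop :=
  ∃ u ∈ D, ∃ v ∈ D' \ {u}, G.Adj u v ∧ D' = (D \ {u}) ∪ {v}

lemma slide_symm (G : SimpleGraph V) {D D' : Finset V}
    (hc : D.card = D'.card) (h : Slide G D D') : Slide G D' D := by
  obtain ⟨u, hu, v, hv, huv, h⟩ := h
  rw [Finset.mem_sdiff, Finset.mem_singleton] at hv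
  have hne' : u ≠ v := fun e => hv.2 e.symm
  have hvD : v ∉ D := by
    intro hvD
    have h1 : D' = D \ {u} := by
      rw [h]
      ext x
      simp only [Finset.mem_union, Finset.mem_sdiff, Finset.mem_singleton]
      constructor
      · rintro (hx | rfl)
        · exact hx
        · exact ⟨hvD, hv.2⟩
      · exact fun hx => Or.inl hx
    have h2 : D'.card < D.card := by
      rw [h1, Finset.sdiff_singleton_eq_erase]
      exact Finset.card_erase_lt_of_mem hu
    omega
  refine ⟨v, hv.1, u, ?_, huv.symm, ?_⟩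
  · rw [Finset.mem_sdiff, Finset.mem_singleton]
    exact ⟨hu, hne'⟩
  · rw [h]
    ext x
    simp only [Finset.mem_union, Finset.mem_sdiff, Finset.mem_singleton]
    constructor
    · intro hx
      by_cases hxu : x = u
      · exact Or.inr hxu
      · refine Or.inl ⟨Or.inl ⟨hx, hxu⟩, ?_⟩
        rintro rfl
        exact hvD hx
    · rintro (⟨h1 | h1, h2⟩ | rfl)
      · exact h1.1
      · exact absurd h1 h2
      · exact hu

lemma slide_irrefl (G : SimpleGraph V) (D : Finset V) : ¬ Slide G D D := by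
  rintro ⟨u, hu, v, hv, huv, h⟩
  rw [h] at hu
  simp only [Finset.mem_union, Finset.mem_sdiff, Finset.mem_singleton, not_true_eq_false,
    and_false, false_or] at hu
  exact huv.ne hu

/-- The IR-graph `G(IR)`: its vertices are the `IR(G)`-sets, and two of them are adjacent
exactly when one slides to the other. -/
def irGraph (G : SimpleGraph V) : SimpleGraph (IRSet G) where
  Adj D D' := Slide G D.1 D'.1
  symm := ⟨fun D D' h => slide_symm G (D.2.2.trans D'.2.2.symm) h⟩
  loopless := ⟨fun D h => slide_irrefl G D.1 h⟩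

lemma irr_iff (D : Finset (Fin 12)) :
    Irredundant Pool.Agent.V11205.IRC.G D ↔ Pool.Agent.V11205.IRC.irr D := Iff.rfl

lemma ir_eq : IR Pool.Agent.V11205.IRC.G = 3 := by
  apply le_antisymm
  · apply csSup_le
    · exact ⟨3, Pool.Agent.V11205.IRC.sets 0, Pool.Agent.V11205.IRC.sets_irr 0,
        Pool.Agent.V11205.IRC.sets_card 0⟩
    · rintro k ⟨D, hD, rfl⟩
      exact Pool.Agent.V11205.IRC.irr_le D hD
  · apply le_csSup
    · refine ⟨3, ?_⟩
      rintro k ⟨D, hD, rfl⟩
      exact Pool.Agent.V11205.IRC.irr_le D hD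
    · exact ⟨Pool.Agent.V11205.IRC.sets 0, Pool.Agent.V11205.IRC.sets_irr 0,
        Pool.Agent.V11205.IRC.sets_card 0⟩

/-- the map from the cycle to the IR-graph -/
noncomputable def toIR (i : Fin 16) : IRSet Pool.Agent.V11205.IRC.G :=
  ⟨Pool.Agent.V11205.IRC.sets i, Pool.Agent.V11205.IRC.sets_irr i,
    (Pool.Agent.V11205.IRC.sets_card i).trans ir_eq.symm⟩

lemma toIR_bij : Function.Bijective toIR := by
  constructor
  · intro i j h
    exact Pool.Agent.V11205.IRC.sets_inj i j (congrArg Subtype.val h)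
  · rintro ⟨T, h1, h2⟩
    have h3 : 3 ≤ T.card := by rw [h2, ir_eq]
    obtain ⟨i, hi⟩ := Pool.Agent.V11205.IRC.irr_eq T h1 h3
    exact ⟨i, Subtype.ext hi⟩

instance : DecidableRel (Slide Pool.Agent.V11205.IRC.G) := fun D D' => by
  unfold Slide; infer_instance

lemma key' : ∀ i j : Fin 16,
    Slide Pool.Agent.V11205.IRC.G (Pool.Agent.V11205.IRC.sets i)
      (Pool.Agent.V11205.IRC.sets j) ↔ (i - j = 1 ∨ j - i = 1) := by decide +kernel

/-- **The negated form of Q1.**  There are `n ≥ 5` and a finite simple graph `G` whose IR-graph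
is isomorphic to the cycle `C_n` (namely `n = 16` and a graph on twelve vertices). -/
theorem result :
    (∃ G : SimpleGraph (Fin 12), Nonempty (irGraph G ≃g SimpleGraph.cycleGraph 16)) ∧
    ∃ n : ℕ, 5 ≤ n ∧ ∃ (m : ℕ) (G : SimpleGraph (Fin m)),
      Nonempty (irGraph G ≃g SimpleGraph.cycleGraph n) := by
  have h : Nonempty (irGraph Pool.Agent.V11205.IRC.G ≃g SimpleGraph.cycleGraph 16) := by
    refine ⟨RelIso.symm ⟨Equiv.ofBijective toIR toIR_bij, ?_⟩⟩
    intro i j
    rw [SimpleGraph.cycleGraph_adj, ← key' i j]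
    exact Iff.rfl
  exact ⟨⟨_, h⟩, 16, by norm_num, 12, _, h⟩

end Pool.Agent.Results.MP_4ec7af_co.CycleSixteenIsIRGraph
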